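import Pool.Agent.H14.BL.FTL
import Pool.Agent.H25.BL.BLT
import Pool.Agent.H3.BL.B35
import Pool.Agent.H31.BL.TTL
import Pool.Agent.H34.BL.LPN
import Pool.Agent.H37.BL.LPH
import Pool.Agent.H42.BL.CHO
import Pool.Agent.H44.BL.MOMG
import Pool.Agent.H51.BL.AEN
import Pool.Agent.H51.BL.SUB
import Pool.Agent.H62.BL.LP1
import Pool.Agent.H64.BL.HOL
import Pool.Agent.H65.BL.CLW
import Pool.Agent.H65.BL.LAY
import Pool.Agent.H71.BL.CHE
import Pool.Agent.H71.BL.CTL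
import Pool.Agent.H72.BL.RND
import Pool.Agent.H91.BL.ENQ
import Pool.Agent.H10.RIC.All

/-! # BL: assembly -/

set_option autoImplicit false

namespace Pool.BL

theorem all_MOMG : S_MOMG :=
  momg_thm (Pool.MED.rtn_thm Pool.MED.rts_thm) Pool.FEX.omb_thm

theorem all_ENQ : S_ENQ := enq_thm hol_thm all_MOMG lay_thm Pool.RIC.all_CNT

theorem all_CTL : S_CTL := ctl_thm all_ENQ lay_thm Pool.RIC.all_CNT

theorem all_TTL : S_TTL := ttl_thm Pool.RIC.all_CNT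

theorem all_FTL : S_FTL := ftl_thm aen_thm lay_thm Pool.RIC.all_CNT

theorem all_CHO : S_CHO := cho_thm sub_thm lph_thm lp1_thm lpn_thm

theorem all_CLW : S_CLW :=
  clw_thm lay_thm all_TTL all_CTL all_FTL rnd_thm (che_thm all_CHO)

/-- `#{R ≤ X, R ≤ c ≤ R ^ κ} ≤ C X ^ (3 / 5 + ε)` -/
theorem all_B35 : S_B35 := b35_thm all_CLW

/-- `#{c ≤ H, R ≤ c ^ λ} ≤ C H ^ (3 λ / 5 + ε)` -/
theorem all_BLT : S_BLT := blt_thm all_CLW

end Pool.BL
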