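import Pool.Agent.H10.RIC.Stmts

/-!
# BL: at most `C X ^ (3 / 5 + ε)` triples `a + b = c` with `rad (a b c) ≤ X`, `c ≥ rad (a b c)`

Improves the exponent `33 / 50` of Browning, Lichtman and Teräväinen.  Proofs in words: the
docstrings.  All exponents are to the base `X`.  Row `XXX` is a theorem
`xxx_thm (h1 : S_AAA) ... : S_XXX` in `Pool/Agent/H<k>/BL/XXX.lean` (import this file, namespace
`Pool.BL`).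
-/

set_option autoImplicit false

namespace Pool.BL

open Finset Pool.Agent.H98.ABCR Pool.SHA

/-! ## Layers of an integer -/

/-- the product of the primes of exponent exactly `e` in `n` -/
def lay (n e : ℕ) : ℕ := ∏ p ∈ n.primeFactors.filter (fun p => n.factorization p = e), p

/-- the part of `n` made of the primes with exponent `> J` -/
def tp (J n : ℕ) : ℕ :=
  ∏ p ∈ n.primeFactors.filter (fun p => J < n.factorization p), p ^ n.factorization p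

/-- the divisor of `n` made of `tp J n` and of the layers with exponents in `K` -/
def kp (J : ℕ) (K : Finset ℕ) (n : ℕ) : ℕ := tp J n * ∏ e ∈ K, lay n e ^ e

/-- LAY: elementary facts about layers (`H34/RIC/ENG.lean`: `layers`, `decomp`, `rad_hi_le`).
`rad (tp J n) ^ (J + 1) ≤ tp J n ≤ n`. -/
def S_LAY : Prop := ∀ J n : ℕ, 0 < n →
  kp J (Icc 1 J) n = n ∧ rad (tp J n) ^ (J + 1) ≤ n ∧
  rad n = rad (tp J n) * ∏ e ∈ Icc 1 J, lay n e ∧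
  (∀ K : Finset ℕ, K ⊆ Icc 1 J →
    kp J K n ∣ n ∧ rad (kp J K n) = rad (tp J n) * ∏ e ∈ K, lay n e) ∧
  ∀ e : ℕ, 0 < lay n e ∧ Squarefree (lay n e) ∧ (1 ≤ e → lay n e ^ e ∣ n) ∧
    (e ∈ Icc 1 J → kp J ((Icc 1 J).erase e) n * lay n e ^ e = n)

/-- profile of a coordinate -/
def Prof (J : ℕ) (X τ : ℝ) (p : ℕ → ℝ) (n : ℕ) : Prop :=
  (rad (tp J n) : ℝ) ≤ X ^ τ ∧ ∀ e ∈ Icc 1 J, (lay n e : ℝ) ≤ X ^ (p e)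

/-! ## Energies modulo `q` -/

/-- MOMG: moments, `q` of any size (model: `H51/RIC/MOM.lean`).  For each of the `≤ N ^ s` tuples
`w.2`, with product `B`, the products `A ≤ N ^ s` with `A ^ e ≡ B ^ e` number at most
`(2 e) ^ ω(q) (N ^ s / q + 1)` (`Pool.MED.S_RTN`), and each `A` is a product of `s` squarefree numbers
in at most `2 ^ (s ω(A))` ways; `Pool.FEX.S_OMB` twice (`q ^ ε` and `(N ^ s) ^ (ε / (s + 1))`). -/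
def S_MOMG : Prop := ∀ (s J : ℕ) (ε : ℝ), 0 < ε → ∃ C : ℝ, 1 ≤ C ∧ ∀ (q e N : ℕ) (U : Finset ℕ),
  0 < q → 1 ≤ e → e ≤ J → 1 ≤ N → (∀ u ∈ U, Squarefree u ∧ u.Coprime q ∧ u ≤ N) →
  ((((Fintype.piFinset fun _ : Fin s => U) ×ˢ (Fintype.piFinset fun _ : Fin s => U)).filter
    (fun w => (∏ i, w.1 i) ^ e ≡ (∏ i, w.2 i) ^ e [MOD q])).card : ℝ) ≤
    C * ((q : ℝ) * N) ^ ε * (N : ℝ) ^ s * (1 + (N : ℝ) ^ s / q)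

/-- number of solutions of `∏ f (u_i) = ∏ f (u'_i)`, `s` factors on each side -/
def Mom {G : Type} [CommGroup G] [DecidableEq G] (U : Finset ℕ) (f : ℕ → G) (s : ℕ) : ℕ :=
  (((Fintype.piFinset fun _ : Fin s => U) ×ˢ (Fintype.piFinset fun _ : Fin s => U)).filter
    (fun z => ∏ i, f (z.1 i) = ∏ i, f (z.2 i))).card

/-- HOL: energy of a product by weighted moments.  Characters `ψ` of `G`, `S_t(ψ) = ∑_{u ∈ U t}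
ψ (f t u)`: the left side is `(1 / |G|) ∑_ψ ∏_t |S_t| ^ 2` and `Mom (U t) (f t) s = (1 / |G|) ∑_ψ
|S_t| ^ (2 s)` (model: `H10/FEW/EN.lean`).  `|S_t| ^ 2 ≤ |U t| ^ (2 (1 - ∑_s s w_ts)) ∏_s
(|S_t| ^ (2 s)) ^ w_ts`, and Hoelder with the weights `w_ts` (and the weight `1 - ∑ w` for the
constant `1`): `(1 / |G|) ∑_ψ ∏_i F_i ^ w_i ≤ ∏_i ((1 / |G|) ∑_ψ F_i) ^ w_i` (divide `F_i` by its
mean, `Real.geom_mean_le_arith_mean_weighted`). -/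
def S_HOL : Prop := ∀ (ι G : Type) [Fintype ι] [DecidableEq ι] [CommGroup G] [Fintype G]
  [DecidableEq G] (U : ι → Finset ℕ) (f : ι → ℕ → G) (S : ℕ) (w : ι → ℕ → ℝ),
  (∀ t s, 0 ≤ w t s) → (∀ t, ∑ s ∈ Icc 1 S, (s : ℝ) * w t s ≤ 1) →
  (∑ t, ∑ s ∈ Icc 1 S, w t s ≤ 1) →
  (((Fintype.piFinset U ×ˢ Fintype.piFinset U).filter
    (fun z => ∏ t, f t (z.1 t) = ∏ t, f t (z.2 t))).card : ℝ) ≤
  ∏ t, (((U t).card : ℝ) ^ (2 * (1 - ∑ s ∈ Icc 1 S, (s : ℝ) * w t s)) *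
    ∏ s ∈ Icc 1 S, (Mom (U t) (f t) s : ℝ) ^ (w t s))

/-- `V` is a possible gain for the costs `p` and a modulus of gain `g` -/
def VB (J S : ℕ) (p : ℕ → ℝ) (g V : ℝ) : Prop := ∃ w : ℕ → ℕ → ℝ, (∀ e s, 0 ≤ w e s) ∧
  (∀ e ∈ Icc 1 J, ∑ s ∈ Icc 1 S, (s : ℝ) * w e s ≤ 1) ∧
  (∑ e ∈ Icc 1 J, ∑ s ∈ Icc 1 S, w e s ≤ 1) ∧
  V ≤ ∑ e ∈ Icc 1 J, ∑ s ∈ Icc 1 S, w e s * min ((s : ℝ) * p e) g

/-- ENQ: collisions modulo `q`.  Key of `n`: `tp J n`, at most `C X ^ (ε / 8 + τ)` values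
(`Pool.RIC.S_CNT`; `τ ≤ κ` without loss of generality, or `Y = X ^ τ` directly).  For one key `t` the
numbers `n = t ∏ lay n e ^ e` are determined by their layers; `t` is prime to `q` and cancels.
`S_HOL` with `G = (ZMod q)ˣ`, `f e u = (u mod q) ^ e`, `U e` = squarefree numbers `≤ X ^ (p e)` prime to
`q` (at most `X ^ (p e)`), weights of `VB`; `S_MOMG` gives `Mom ≤ 2 C X ^ ε' X ^ (2 s p e - min (s p e) g)`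
(`N ^ s (1 + N ^ s / q) ≤ 2 X ^ (s p + max 0 (s p - g))`).  The exponents add up to
`2 ∑ p e - ∑ w min`.  Different keys: Cauchy-Schwarz, `∑_x (∑_k N_k(x)) ^ 2 ≤ #keys ^ 2 * max`
(model: `H34/RIC/ENG.lean`). -/
def S_ENQ : Prop := ∀ (J S : ℕ) (κ ε : ℝ), 1 ≤ κ → 0 < ε → ∃ C : ℝ, 1 ≤ C ∧
  ∀ (X τ g V : ℝ) (q : ℕ) (P : Finset ℕ) (p : ℕ → ℝ), 1 ≤ X → 0 ≤ τ → 0 ≤ g →
  (∀ e, 0 ≤ p e ∧ p e ≤ 2) → VB J S p g V → X ^ g ≤ q → (q : ℝ) ≤ X ^ κ →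
  (∀ n ∈ P, 0 < n ∧ n.Coprime q ∧ (n : ℝ) ≤ X ^ κ ∧ Prof J X τ p n) →
  (((P ×ˢ P).filter (fun z => z.1 ≡ z.2 [MOD q])).card : ℝ) ≤
    C * X ^ (ε + 2 * τ + 2 * (∑ e ∈ Icc 1 J, p e) - V)

/-! ## The rounding lemma -/

/-- RN0: ROUNDING LEMMA, modulus of gain `1`, total cost `x = ∑ p ≤ 1`.  `k = ⌊1 / p⌋`; `y`, `z` = the
weights of the moments of order `k`, `k + 1` (values `k p y` and `z`).
* `x ≤ 1 / 2`: `y = 1 / k`, `z = 0` (`1 / k ≤ 2 p`).  Value `x`.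
* `1 / 2 < x`, all `p ≤ 1 / 2` (so `k ≥ 2`).  `l = 1 / (k + 1)`, `d = p - l ∈ [0, m]`,
  `m = 1 / (k (k + 1)) ≤ l / 2`; `L, D, M` = sums of `l, d, m`; `L ≤ x ≤ 1`.  `φ = 1` if `L + M ≤ 1`, else
  `φ = (1 - L) / M`.  `y = φ / k`, `z = (1 - φ) / (k + 1)`: weight `l + φ m`, value `l + φ d`.  If `φ = 1`:
  value `x ≥ x / 2 + 1 / 4`.  Otherwise `L + φ D ≥ (L + D) / 2 + 1 / 4`: `L > 2 / 3` (as `M ≤ L / 2`); clear if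
  `φ ≥ 1 / 2`; if `φ < 1 / 2`, `D ≤ L / 2` and `φ ≥ 2 (1 - L) / L` give
  `L / 2 - D (1 / 2 - φ) ≥ L / 4 + L φ / 2 ≥ 1 - 3 L / 4 ≥ 1 / 4`.
* `1 / 2 < x`, one `p_1 = 1 / 2 + d_1 > 1 / 2` (unique; `k_1 = 1`).  The others: `y = 0`,
  `z = l = 1 / (k + 1)`, sums `L' ≤ x - p_1 < 1 / 2`, `D' = ∑ (p - l) ≤ L' / 2`.  Atom `1`: `y_1 = 1 - 2 L'`,
  `z_1 = L'`: weight `1 - L'`, `y_1 + 2 z_1 = 1`, value `1 / 2 + (1 - 2 L') d_1`.  Needed: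
  `L' / 2 - D' / 2 + d_1 (1 / 2 - 2 L') ≥ 0`; clear if `L' ≤ 1 / 4`; if `L' > 1 / 4` use
  `d_1 ≤ 1 / 2 - L' - D'`: the left side is `≥ 1 / 4 - L' + 2 L' ^ 2 - D' (1 - 2 L')
  ≥ 1 / 4 - 3 L' / 2 + 3 L' ^ 2 > 0`. -/
def S_RN0 : Prop := ∀ (ι : Type) [Fintype ι] [DecidableEq ι] (p : ι → ℝ),
  (∀ t, 0 < p t) → ∑ t, p t ≤ 1 → ∃ (k : ι → ℕ) (y z : ι → ℝ),
    (∀ t, 1 ≤ k t ∧ (k t : ℝ) * p t ≤ 1 ∧ 1 ≤ ((k t : ℝ) + 1) * p t ∧ 0 ≤ y t ∧ 0 ≤ z t ∧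
      (k t : ℝ) * y t + ((k t : ℝ) + 1) * z t ≤ 1) ∧
    ∑ t, (y t + z t) ≤ 1 ∧
    min (∑ t, p t) ((∑ t, p t) / 2 + 1 / 4) ≤ ∑ t, ((k t : ℝ) * p t * y t + z t)

/-- RND: rounding lemma.  Drop the `e` with `p e < η / (J + 1)` (loss at most `η`).  `x` = the sum of
the others.  `g = 0`: `w = 0`.  If `g > 2 x` replace `g` by `2 x` (then `S_RN0` uses only
`k + 1 ≤ 2 x / p + 1`; `x = 0` clear).  `x ≤ g`: `S_RN0` for `p / g`, value `≥ min x (x / 2 + g / 4)`.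
`x > g`: `S_RN0` for `p / x`: `min (s p) g ≥ g min (s p / x) 1`, value `≥ 3 g / 4`. -/
def S_RND : Prop := ∀ (J : ℕ) (η : ℝ), 0 < η → ∃ S : ℕ, ∀ (p : ℕ → ℝ) (g : ℝ),
  (∀ e, 0 ≤ p e ∧ p e ≤ 2) → 0 ≤ g →
  VB J S p g (min (∑ e ∈ Icc 1 J, p e)
    (min ((∑ e ∈ Icc 1 J, p e) / 2 + g / 4) (3 * g / 4)) - η)

/-! ## The three tools -/

/-- TTL: two radicals (`Pool.RIC.S_CNT` twice; two coordinates determine the triple) -/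
def S_TTL : Prop := ∀ κ ε : ℝ, 1 ≤ κ → 0 < ε → ∃ C : ℝ, 1 ≤ C ∧
  ∀ (X y z : ℝ) (F : Finset (ℕ × ℕ)) (j k : Fin 3), 1 ≤ X → 0 ≤ y → 0 ≤ z → j ≠ k →
  (∀ v ∈ F, IsTri v ∧ hh v ≤ κ * Real.log X ∧
    (rad (coord v j) : ℝ) ≤ X ^ y ∧ (rad (coord v k) : ℝ) ≤ X ^ z) →
  (F.card : ℝ) ≤ C * X ^ (ε + y + z)

/-- CTL: congruences.  `q = kp J K (coord v i)`: at most `C X ^ (ε / 4 + τ + ∑_K p)` values
(`Pool.RIC.S_CNT`, `S_LAY`).  For one `q`: `coord v j ≡ ± coord v k` modulo `q`, both prime to `q`, and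
they determine `v`; `∑_x N_j(x) N_k(± x) ≤ √(E_j E_k)`, `S_ENQ` (model: `H71/RIC/RCH.lean`). -/
def S_CTL : Prop := ∀ (J S : ℕ) (κ ε : ℝ), 1 ≤ κ → 0 < ε → ∃ C : ℝ, 1 ≤ C ∧
  ∀ (X τ g V W : ℝ) (F : Finset (ℕ × ℕ)) (i j k : Fin 3) (K : Finset ℕ) (p : Fin 3 → ℕ → ℝ),
  1 ≤ X → 0 ≤ τ → 0 ≤ g → i ≠ j → i ≠ k → j ≠ k → K ⊆ Icc 1 J →
  (∀ l e, 0 ≤ p l e ∧ p l e ≤ 2) → VB J S (p j) g V → VB J S (p k) g W →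
  (∀ v ∈ F, IsTri v ∧ hh v ≤ κ * Real.log X ∧ (∀ l, Prof J X τ (p l) (coord v l)) ∧
    X ^ g ≤ (kp J K (coord v i) : ℝ)) →
  (F.card : ℝ) ≤ C * X ^ (ε + 4 * τ + ∑ e ∈ K, p i e + (∑ e ∈ Icc 1 J, p j e - V / 2) +
    (∑ e ∈ Icc 1 J, p k e - W / 2))

/-- AEN: additive energy of the `e`-th powers.  `a ^ e - c ^ e = d ^ e - b ^ e =: n`.  `n = 0`: `N ^ 2`
quadruples.  `n ≠ 0`: for each of the `≤ N ^ 2` pairs `(a, c)`, `d - b` is one of the `≤ C |n| ^ ε'`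
divisors of `n` (up to the sign), and `(b + m) ^ e - b ^ e = n` determines `b` (`e ≥ 2`: strictly
increasing). -/
def S_AEN : Prop := ∀ (J : ℕ) (ε : ℝ), 0 < ε → ∃ C : ℝ, 1 ≤ C ∧ ∀ e N : ℕ, 2 ≤ e → e ≤ J → 1 ≤ N →
  ((((Icc 1 N ×ˢ Icc 1 N) ×ˢ (Icc 1 N ×ˢ Icc 1 N)).filter
    (fun z : (ℕ × ℕ) × (ℕ × ℕ) => z.1.1 ^ e + z.1.2 ^ e = z.2.1 ^ e + z.2.2 ^ e)).card : ℝ) ≤
    C * (N : ℝ) ^ (2 + ε)

/-- FTL: additive energy.  Fix the cofactors `r = kp J ((Icc 1 J).erase e) (coord v j)` and `s` (for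
`k`, `f`): at most `C X ^ (ε / 4 + 2 τ + x_j - p j e + x_k - p k f)` pairs (`Pool.RIC.S_CNT`, `S_LAY`).  For
given `r`, `s` the triple is determined by `(u, w)` = (`lay (coord v j) e`, `lay (coord v k) f`), and
`coord v i` (= `± r u ^ e ± s w ^ f`, signs depending on `i, j, k` only) is one of at most
`C X ^ (ε / 4 + τ + x_i)` numbers `n`.  `T = ∑_n T_n ≤ √(#n ∑ T_n ^ 2)`, and `∑ T_n ^ 2` counts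
`r (u ^ e - u' ^ e) = ± s (w' ^ f - w ^ f)`: at most `√(E_u E_w)` (Cauchy-Schwarz over the common
value), `E_u, E_w` from `S_AEN` with `N = ⌊X ^ (p j e)⌋, ⌊X ^ (p k f)⌋`. -/
def S_FTL : Prop := ∀ (J : ℕ) (κ ε : ℝ), 1 ≤ κ → 0 < ε → ∃ C : ℝ, 1 ≤ C ∧
  ∀ (X τ : ℝ) (F : Finset (ℕ × ℕ)) (i j k : Fin 3) (e f : ℕ) (p : Fin 3 → ℕ → ℝ),
  1 ≤ X → 0 ≤ τ → i ≠ j → i ≠ k → j ≠ k → e ∈ Icc 2 J → f ∈ Icc 2 J →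
  (∀ l e, 0 ≤ p l e ∧ p l e ≤ 2) →
  (∀ v ∈ F, IsTri v ∧ hh v ≤ κ * Real.log X ∧ ∀ l, Prof J X τ (p l) (coord v l)) →
  (F.card : ℝ) ≤ C * X ^ (ε + 4 * τ + (∑ e ∈ Icc 1 J, p i e) / 2 +
    (∑ e ∈ Icc 1 J, p j e - p j e / 2) + (∑ e ∈ Icc 1 J, p k e - p k f / 2))

/-! ## The choice of the tool -/

/-- the bound for the energy of numbers of radical `X ^ x` modulo a modulus of size `X ^ g` -/
noncomputable def Phi (x g : ℝ) : ℝ := max x (max (3 * x / 2 - g / 4) (2 * x - 3 * g / 4))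

/-- SUB: subset sums (an element in `[θ, ρ]`; otherwise all elements are `< θ` and the first partial
sum `≥ θ` is `< 2 θ`) -/
def S_SUB : Prop := ∀ (s : Finset ℕ) (f : ℕ → ℝ) (θ ρ : ℝ), (∀ e ∈ s, 0 ≤ f e ∧ f e ≤ ρ) →
  0 ≤ θ → 2 * θ ≤ ρ → θ ≤ ∑ e ∈ s, f e → ∃ K : Finset ℕ, K ⊆ s ∧ θ ≤ ∑ e ∈ K, f e ∧ ∑ e ∈ K, f e ≤ ρ

/-- LPH: linear programme for a set of exponents `≥ 5` (split the two maxima, `linarith`) -/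
def S_LPH : Prop := ∀ x xj xk k g : ℝ, 0 ≤ x → 0 ≤ xj → 0 ≤ xk → x + xj + xk ≤ 1 →
  3 / 5 < x + xj → 3 / 5 < x + xk → 3 / 5 < xj + xk → 1 / 12 ≤ k → k ≤ 1 / 10 + x / 2 →
  5 * k ≤ g → k + (Phi xj g + Phi xk g) / 2 ≤ 3 / 5

/-- LP1: linear programme for a big squarefree part -/
def S_LP1 : Prop := ∀ x xj xk p g : ℝ, 0 ≤ x → 0 ≤ xj → 0 ≤ xk → x + xj + xk ≤ 1 →
  3 / 5 < x + xj → 3 / 5 < x + xk → 3 / 5 < xj + xk → 1 / 10 + x / 2 < p → p ≤ x →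
  1 - p ≤ g → (x - p) + (Phi xj g + Phi xk g) / 2 ≤ 3 / 5

/-- LPN: linear programme for a coordinate without big layer; `h`, `c` = cost and gain of the exponents
`≥ 5`.  Otherwise the three values are `> 3 / 5`; split the six maxima (of the `9` cases of the second
alternative only two survive: no loss for both; or both `2 x - 3 g / 4`), `linarith`. -/
def S_LPN : Prop := ∀ p1 p2 p3 p4 h c x xj xk : ℝ, 0 ≤ p1 → 0 ≤ p2 → 0 ≤ p3 → 0 ≤ p4 → 0 ≤ h →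
  x = p1 + p2 + p3 + p4 + h → 0 ≤ xj → 0 ≤ xk → x + xj + xk ≤ 1 →
  3 / 5 < x + xj → 3 / 5 < x + xk → 3 / 5 < xj + xk →
  p1 ≤ 1 / 10 + x / 2 → p2 ≤ 1 / 10 + x / 2 → p3 ≤ 1 / 10 + x / 2 → p4 ≤ 1 / 10 + x / 2 →
  h ≤ 1 / 12 → 5 * h ≤ c → 1 ≤ p1 + 2 * p2 + 3 * p3 + 4 * p4 + c →
  p4 + (Phi xj (4 * p4) + Phi xk (4 * p4)) / 2 ≤ 3 / 5 ∨
  p4 + h + (Phi xj (4 * p4 + c) + Phi xk (4 * p4 + c)) / 2 ≤ 3 / 5 ∨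
  p2 + p4 + h + (Phi xj (2 * p2 + 4 * p4 + c) + Phi xk (2 * p2 + 4 * p4 + c)) / 2 ≤ 3 / 5

/-- CHO: CHOICE LEMMA.  `x_l` = the costs; assume that the first alternative fails: all `x_l < 2 / 5`
and `> 1 / 5`; `ρ_l = 1 / 10 + x_l / 2`.  (1) `b` and `c` have layers `e`, `f ≥ 2` of cost `> ρ`: second
alternative, value `< x_a / 2 + 3 (x_b + x_c) / 4 - 1 / 10 ≤ 13 / 20 - x_a / 4 ≤ 3 / 5`.  Otherwise let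
`i ∈ {b, c}` have no such layer.  (2) `p i 1 > ρ`: `K = Icc 2 J`, `S_LP1`.  (3) All layers of `i` cost
`≤ ρ`; `H = Icc 5 J`; if its cost is `≥ 1 / 12`: `S_SUB` (`θ = 1 / 12`, `ρ ≥ 1 / 5`) and `S_LPH`; otherwise
`S_LPN` with `c = t i + ∑_{e ≥ 5} e p_e`: `K = {4}`, `{4} ∪ H`, `{2, 4} ∪ H` (`Phi` decreases in `g`). -/
def S_CHO : Prop := ∀ (J : ℕ) (p : Fin 3 → ℕ → ℝ) (t : Fin 3 → ℝ) (a b c : Fin 3), 5 ≤ J →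
  a ≠ b → a ≠ c → b ≠ c → (∀ l e, 0 ≤ p l e) → (∀ l, 0 ≤ t l) →
  ∑ l, ∑ e ∈ Icc 1 J, p l e ≤ 1 →
  (∀ i, i ≠ a → 1 ≤ t i + ∑ e ∈ Icc 1 J, (e : ℝ) * p i e) →
  (∃ j k, j ≠ k ∧ ∑ e ∈ Icc 1 J, p j e + ∑ e ∈ Icc 1 J, p k e ≤ 3 / 5) ∨
  (∃ e f, e ∈ Icc 2 J ∧ f ∈ Icc 2 J ∧ (∑ e ∈ Icc 1 J, p a e) / 2 +
    (∑ e ∈ Icc 1 J, p b e - p b e / 2) + (∑ e ∈ Icc 1 J, p c e - p c f / 2) ≤ 3 / 5) ∨
  (∃ (i j k : Fin 3) (K : Finset ℕ), i ≠ a ∧ i ≠ j ∧ i ≠ k ∧ j ≠ k ∧ K ⊆ Icc 1 J ∧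
    ∑ e ∈ K, p i e + (Phi (∑ e ∈ Icc 1 J, p j e) (t i + ∑ e ∈ K, (e : ℝ) * p i e) +
      Phi (∑ e ∈ Icc 1 J, p k e) (t i + ∑ e ∈ K, (e : ℝ) * p i e)) / 2 ≤ 3 / 5)

/-- CHE: choice lemma with slack.  `S_CHO` for `p / (1 + η)` and `t / (1 + η) + 2 η`, multiplied by
`1 + η` (`Phi` is homogeneous, and `Phi x g ≤ Phi x (g + y) + 3 y / 4`). -/
def S_CHE : Prop := ∀ (J : ℕ) (p : Fin 3 → ℕ → ℝ) (t : Fin 3 → ℝ) (a b c : Fin 3) (η : ℝ), 5 ≤ J →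
  a ≠ b → a ≠ c → b ≠ c → 0 ≤ η → η ≤ 1 / 10 → (∀ l e, 0 ≤ p l e) → (∀ l, 0 ≤ t l) →
  ∑ l, ∑ e ∈ Icc 1 J, p l e ≤ 1 + η →
  (∀ i, i ≠ a → 1 - η ≤ t i + ∑ e ∈ Icc 1 J, (e : ℝ) * p i e) →
  (∃ j k, j ≠ k ∧ ∑ e ∈ Icc 1 J, p j e + ∑ e ∈ Icc 1 J, p k e ≤ 3 / 5 + 4 * η) ∨
  (∃ e f, e ∈ Icc 2 J ∧ f ∈ Icc 2 J ∧ (∑ e ∈ Icc 1 J, p a e) / 2 +
    (∑ e ∈ Icc 1 J, p b e - p b e / 2) + (∑ e ∈ Icc 1 J, p c e - p c f / 2) ≤ 3 / 5 + 4 * η) ∨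
  (∃ (i j k : Fin 3) (K : Finset ℕ), i ≠ a ∧ i ≠ j ∧ i ≠ k ∧ j ≠ k ∧ K ⊆ Icc 1 J ∧
    ∑ e ∈ K, p i e + (Phi (∑ e ∈ Icc 1 J, p j e) (t i + ∑ e ∈ K, (e : ℝ) * p i e) +
      Phi (∑ e ∈ Icc 1 J, p k e) (t i + ∑ e ∈ K, (e : ℝ) * p i e)) / 2 ≤ 3 / 5 + 4 * η)

/-! ## Assembly -/

/-- CLW: window.  `η = min (ε / 40) (1 / 10)`, `J = ⌈κ / η⌉ + 5`, `δ = η / (4 J ^ 2)`.  Class of `v`: for each
`l` and `e ∈ Icc 1 J` the integer `m = ⌈log_X (lay (coord v l) e) / δ⌉` (`p l e = δ m`; `0 ≤ p ≤ 2`), and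
`m' = ⌊log_X (tp J (coord v l)) / δ⌋` (`t l = δ m'`): at most `(2 + 1 / δ) ^ (3 J) (1 + κ / δ) ^ 3` classes
(`X ≥ X0` with `log_X 4 ≤ η / 4`; smaller `X`: at most `X0 ^ (2 κ)` pairs).  In a class: `Prof` with
`τ = κ / J ≤ η` (`S_LAY`: `rad (tp) ^ (J + 1) ≤ n ≤ X ^ κ`), `∑ p ≤ 1 + 3 J δ ≤ 1 + η` (the layers of the three
coordinates have product `≤ RR v ≤ X`), `t i + ∑ e p i e ≥ log_X (coord v i) - δ ≥ 1 - η` for `i ≠ a`, and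
`kp J K (coord v i) ≥ X ^ (t i + ∑_K e p i e - J ^ 2 δ)` (so use `g = max 0 (t i + ∑_K e p i e - η)`).
`S_CHE` and one of `S_TTL` (radical `≤ X ^ (τ + x_j)`), `S_FTL`, `S_CTL` + `S_RND` (`2 x - V ≤ Phi x g + η`,
`Phi x (g - η) ≤ Phi x g + η`): class `≤ C X ^ (3 / 5 + 20 η)`. -/
def S_CLW : Prop := ∀ κ ε : ℝ, 1 ≤ κ → 0 < ε → ∃ C : ℝ, 1 ≤ C ∧
  ∀ (X : ℝ) (F : Finset (ℕ × ℕ)) (a : Fin 3), 1 ≤ X →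
  (∀ v ∈ F, IsTri v ∧ (RR v : ℝ) ≤ X ∧ hh v ≤ κ * Real.log X ∧
    ∀ i, i ≠ a → X / 4 ≤ (coord v i : ℝ)) →
  (F.card : ℝ) ≤ C * X ^ (3 / 5 + ε)

/-- B35: THEOREM, polynomial heights.  Dyadic in the radical: `Z / 2 < RR v ≤ Z` (`Z = 2 ^ m`, model
`H49/RIC/WAA.lean`); `c ≥ RR v > Z / 2`, so `c` and the larger of `v.1`, `v.2` (two classes: `a = 0` or
`a = 1`) are `≥ Z / 4`; `S_CLW`. -/
def S_B35 : Prop := ∀ κ ε : ℝ, 1 ≤ κ → 0 < ε → ∃ C : ℝ, 1 ≤ C ∧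
  ∀ (X : ℝ) (F : Finset (ℕ × ℕ)), 1 ≤ X →
  (∀ v ∈ F, IsTri v ∧ (RR v : ℝ) ≤ X ∧ RR v ≤ v.1 + v.2 ∧
    hh v ≤ κ * Real.log (RR v)) →
  (F.card : ℝ) ≤ C * X ^ (3 / 5 + ε)

/-- BLT: THEOREM, by height.  Dyadic in the height: `H / 2 < v.1 + v.2 ≤ H`, `X = H ^ lam`,
`κ = 1 / lam`: `RR v ≤ X`, and `c` and the larger of `v.1`, `v.2` are `≥ H / 4 ≥ X / 4`; `S_CLW`. -/
def S_BLT : Prop := ∀ lam ε : ℝ, 0 < lam → lam ≤ 1 → 0 < ε → ∃ C : ℝ, 1 ≤ C ∧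
  ∀ (H : ℝ) (F : Finset (ℕ × ℕ)), 1 ≤ H →
  (∀ v ∈ F, IsTri v ∧ ((v.1 + v.2 : ℕ) : ℝ) ≤ H ∧
    (RR v : ℝ) ≤ ((v.1 + v.2 : ℕ) : ℝ) ^ lam) →
  (F.card : ℝ) ≤ C * H ^ (3 * lam / 5 + ε)

end Pool.BL
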